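import Pool.Agent.H29.Lip3

namespace Pool.Agent.Results.MP_e86906_an.Spec

open Filter Topology Metric Function H29.Lip

variable {M : Type*} [MetricSpace M]

/-- `A(f)`: the orders of the periodic points of `f` other than the base point. -/
def orders (o : M) (f : M → M) : Set ℕ :=
  {n | 1 ≤ n ∧ ∃ x, x ≠ o ∧ f^[n] x = x ∧ ∀ k, 1 ≤ k → k < n → f^[k] x ≠ x}

lemma vanish [CompleteSpace M] {o : M} {f : M → M} {K : NNReal} (hf : LipschitzWith K f)
    (h0 : f o = o) (H : HU o f) (T : Free o →L[ℂ] Free o) (hT : ∀ x, T (dl o x) = dl o (f x))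
    {γ : Free o} {z : ℂ} (hz : z ≠ 0) (hγ : T γ = z • γ) (g : L0 o)
    (hg : ∀ p ∈ periodicPts f, fn g p = 0) : val γ g = 0 := by
  have hz' : 0 < ‖z‖ := norm_pos_iff.2 hz
  obtain ⟨ε, hε, hε1, hε2⟩ : ∃ ε : ℝ, 0 < ε ∧ ε ≤ 1 / 2 ∧ ε ≤ ‖z‖ / 4 :=
    ⟨min (1 / 2) (‖z‖ / 4), by positivity, min_le_left _ _, min_le_right _ _⟩
  obtain ⟨S, C, hC, hS⟩ := H ε hε
  choose D hD hD' using asym hf H h0 hε hε1
  have hit : ∀ k x, fn ((cf hf h0)^[k] g) x = fn g (f^[k] x) := by
    intro k
    induction k with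
    | zero => intro x; rfl
    | succ k ih => intro x; rw [iterate_succ_apply', fn_cf, ih, iterate_succ_apply]
  obtain ⟨E, hE⟩ : ∃ E, E = C * ∑ s ∈ S, ‖g‖ * D s := ⟨_, rfl⟩
  have hE0 : 0 ≤ E := by
    rw [hE]; exact mul_nonneg hC (Finset.sum_nonneg fun s _ => mul_nonneg (norm_nonneg _) (hD s))
  have hb : ∀ k, ‖(cf hf h0)^[k] g‖ ≤ (‖g‖ + E / ε) * (2 * ε) ^ k := by
    intro k
    induction k with
    | zero => simp; positivity
    | succ k ih =>
      rw [iterate_succ_apply']
      have a1 : C * ∑ s ∈ S, ‖fn ((cf hf h0)^[k] g) s‖ ≤ E * ε ^ k := by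
        rw [hE, mul_assoc, Finset.sum_mul]
        refine mul_le_mul_of_nonneg_left (Finset.sum_le_sum fun s _ => ?_) hC
        obtain ⟨p, hp, hd⟩ := hD' s k
        have := le_norm g (f^[k] s) p
        rw [hg p hp, sub_zero] at this
        rw [hit, mul_assoc]
        exact this.trans (mul_le_mul_of_nonneg_left hd (norm_nonneg _))
      have a2 : ε ^ k ≤ (2 * ε) ^ k := pow_le_pow_left₀ hε.le (by linarith) k
      have a3 : ε * ‖(cf hf h0)^[k] g‖ + C * ∑ s ∈ S, ‖fn ((cf hf h0)^[k] g) s‖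
          ≤ (‖g‖ + E / ε) * (2 * ε) ^ (k + 1) := by
        have b1 := mul_le_mul_of_nonneg_left ih hε.le
        have b2 := mul_le_mul_of_nonneg_left a2 hE0
        have b3 : (‖g‖ + E / ε) * (2 * ε) ^ (k + 1)
            = ε * ((‖g‖ + E / ε) * (2 * ε) ^ k) + E * (2 * ε) ^ k + ε * ‖g‖ * (2 * ε) ^ k := by
          rw [pow_succ]; field_simp; ring
        have b4 : 0 ≤ ε * ‖g‖ * (2 * ε) ^ k := by positivity
        linarith
      refine norm_le _ (by positivity) fun x y => ?_
      rw [fn_cf, fn_cf]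
      exact (hS _ x y).trans (mul_le_mul_of_nonneg_right a3 dist_nonneg)
  have hev : ∀ k, val γ ((cf hf h0)^[k] g) = z ^ k * val γ g := by
    intro k
    induction k with
    | zero => simp
    | succ k ih =>
      rw [iterate_succ_apply', ← T_eval hf h0 T hT, hγ, val_smul, ih]; ring
  have hle : ∀ k : ℕ, ‖val γ g‖ ≤ ‖γ‖ * (‖g‖ + E / ε) * (1 / 2) ^ k := by
    intro k
    have a := (ev_le γ ((cf hf h0)^[k] g)).trans
      (mul_le_mul_of_nonneg_left (hb k) (norm_nonneg _))
    rw [hev, norm_mul, norm_pow] at a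
    have b : (2 * ε) ^ k ≤ ‖z‖ ^ k * (1 / 2) ^ k := by
      rw [← mul_pow]; exact pow_le_pow_left₀ (by positivity) (by linarith) k
    have c := mul_le_mul_of_nonneg_left b (show 0 ≤ ‖γ‖ * (‖g‖ + E / ε) by positivity)
    have d : 0 < ‖z‖ ^ k := by positivity
    refine le_of_mul_le_mul_left ?_ d
    nlinarith
  have ht : Tendsto (fun k : ℕ => ‖γ‖ * (‖g‖ + E / ε) * (1 / 2 : ℝ) ^ k) atTop (𝓝 0) := by
    simpa using (tendsto_pow_atTop_nhds_zero_of_lt_one (by norm_num : (0:ℝ) ≤ 1 / 2)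
      (by norm_num)).const_mul (‖γ‖ * (‖g‖ + E / ε))
  exact norm_le_zero_iff.1 (ge_of_tendsto' ht hle)

lemma bump {o : M} {P : Set M} (hP : P.Finite) (ho : o ∈ P) {p : M} (hp : p ≠ o) :
    ∃ e : L0 o, fn e p = 1 ∧ ∀ q ∈ P, q ≠ p → fn e q = 0 := by
  have hcl : IsClosed (P \ {p}) := (hP.subset Set.diff_subset).isClosed
  have ho' : o ∈ P \ {p} := ⟨ho, fun h => hp (Set.mem_singleton_iff.1 h).symm⟩
  have hpos : 0 < infDist p (P \ {p}) := (hcl.notMem_iff_infDist_pos ⟨o, ho'⟩).1 (by simp)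
  have hl : ∀ x y, ‖(infDist x (P \ {p}) : ℂ) - (infDist y (P \ {p}) : ℂ)‖ ≤ 1 * dist x y :=
    fun x y => by
      rw [← Complex.ofReal_sub, Complex.norm_real, Real.norm_eq_abs, one_mul]
      exact inf_lip _ x y
  refine ⟨((infDist p (P \ {p}) : ℂ))⁻¹ • mk o (fun x => (infDist x (P \ {p}) : ℂ))
    (by simp [infDist_zero_of_mem ho']) 1 zero_le_one hl, ?_, fun q hq hqp => ?_⟩
  · rw [fn_smul, fn_mk]
    exact inv_mul_cancel₀ (Complex.ofReal_ne_zero.2 hpos.ne')
  · rw [fn_smul, fn_mk]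
    simp [infDist_zero_of_mem (show q ∈ P \ {p} from ⟨hq, hqp⟩)]

lemma mem_orders {o : M} {f : M → M} {p : M} (hp : p ∈ periodicPts f) (hpo : p ≠ o) :
    minimalPeriod f p ∈ orders o f :=
  ⟨minimalPeriod_pos_of_mem_periodicPts hp, p, hpo, iterate_minimalPeriod, fun _ h1 h2 h =>
    (IsPeriodicPt.minimalPeriod_le h1 h).not_gt h2⟩

lemma fn_sum {o : M} {ι : Type*} (s : Finset ι) (g : ι → L0 o) (x : M) :
    fn (∑ i ∈ s, g i) x = ∑ i ∈ s, fn (g i) x := map_sum (delta o x) g s

lemma val_sum {o : M} {ι : Type*} (s : Finset ι) (a : ι → Free o) (g : L0 o) :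
    val (∑ i ∈ s, a i) g = ∑ i ∈ s, val (a i) g := by
  classical
  induction s using Finset.induction_on with
  | empty => simp [val_zero]
  | insert b s hb ih => rw [Finset.sum_insert hb, Finset.sum_insert hb, val_add, ih]

theorem result {M : Type*} [MetricSpace M] [CompleteSpace M] (o : M) (f : M → M) (K : NNReal)
    (hf : LipschitzWith K f) (h0 : f o = o) (T : Free o →L[ℂ] Free o)
    (hT : ∀ x, T (dl o x) = dl o (f x)) (hc : IsCompactOperator T) :
    (orders o f).Finite ∧ spectrum ℂ T \ {0} = ⋃ n ∈ orders o f, {z : ℂ | z ^ n = 1} := by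
  classical
  have H := hu_of_compact T hT hc
  have hP := per_finite hf H h0
  have hoP : o ∈ periodicPts f := ⟨1, one_pos, h0⟩
  have hb : ∀ p, p ≠ o → ∃ e : L0 o, fn e p = 1 ∧ ∀ q ∈ periodicPts f, q ≠ p → fn e q = 0 :=
    fun p hp => bump hP hoP hp
  choose! e he1 he0 using hb
  refine ⟨(hP.image (minimalPeriod f)).subset ?_, Set.Subset.antisymm ?_ ?_⟩
  · rintro n ⟨hn, x, -, hx, hk⟩
    have hx' : IsPeriodicPt f n x := hx
    refine ⟨x, ⟨n, hn, hx'⟩, le_antisymm (hx'.minimalPeriod_le hn) ?_⟩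
    by_contra h
    exact hk _ (hx'.minimalPeriod_pos hn) (not_le.1 h) iterate_minimalPeriod
  · rintro z ⟨hz, hz0⟩
    have hz0' : z ≠ 0 := hz0
    obtain ⟨γ, hγ⟩ := ((hc.hasEigenvalue_iff_mem_spectrum hz0').2 hz).exists_hasEigenvector
    have hγ' : T γ = z • γ := hγ.apply_eq_smul
    by_contra hn
    simp only [Set.mem_iUnion, Set.mem_ofPred_eq, not_exists] at hn
    set Q := hP.toFinset.erase o with hQ
    have hQm : ∀ q, q ∈ Q ↔ q ≠ o ∧ q ∈ periodicPts f := fun q => by simp [hQ]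
    have hdec : ∀ g, val γ g = ∑ q ∈ Q, fn g q * val γ (e q) := by
      intro g
      have := vanish hf h0 H T hT hz0' hγ' (g - ∑ q ∈ Q, fn g q • e q) (fun p hp => by
        rw [fn_sub, Pi.sub_apply, fn_sum]
        by_cases hpo : p = o
        · subst hpo
          simp only [fn_base, Finset.sum_const_zero, sub_zero]
        · rw [Finset.sum_eq_single p]
          · simp [fn_smul, he1 p hpo]
          · intro q hq hqp
            simp [fn_smul, he0 q ((hQm q).1 hq).1 p hp (Ne.symm hqp)]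
          · intro h; exact absurd ((hQm p).2 ⟨hpo, hp⟩) h)
      rw [map_sub, map_sum, sub_eq_zero] at this
      simpa using this
    have hit : ∀ k (g : L0 o) x, fn ((cf hf h0)^[k] g) x = fn g (f^[k] x) := by
      intro k g
      induction k with
      | zero => intro x; rfl
      | succ k ih => intro x; rw [iterate_succ_apply', fn_cf, ih, iterate_succ_apply]
    have hev : ∀ k (g : L0 o), val γ ((cf hf h0)^[k] g) = z ^ k * val γ g := by
      intro k g
      induction k with
      | zero => simp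
      | succ k ih =>
        rw [iterate_succ_apply', ← T_eval hf h0 T hT, hγ', val_smul, ih]; ring
    have hzero : ∀ p ∈ Q, val γ (e p) = 0 := by
      intro p hp
      obtain ⟨hpo, hpp⟩ := (hQm p).1 hp
      have a := hev (minimalPeriod f p) (e p)
      rw [hdec, Finset.sum_eq_single p] at a
      · rw [hit, iterate_minimalPeriod, he1 p hpo, one_mul] at a
        have b := hn _ (mem_orders hpp hpo)
        have c : (z ^ minimalPeriod f p - 1) * val γ (e p) = 0 := by linear_combination -a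
        exact (mul_eq_zero.1 c).resolve_left (sub_ne_zero.2 b)
      · intro q hq hqp
        obtain ⟨hqo, n, hn0, hqn⟩ := (hQm q).1 hq
        rw [hit, he0 p hpo _ ⟨n, hn0, hqn.apply_iterate _⟩, zero_mul]
        intro h
        apply hqp
        obtain ⟨m, hm0, hpm⟩ := hpp
        exact IsPeriodicPt.eq_of_apply_eq (f := f^[minimalPeriod f p]) (hqn.iterate _)
          (hpm.iterate _) hn0 hm0 (by rw [h, iterate_minimalPeriod])
      · intro h; exact absurd hp h
    apply hγ.2
    refine val_ext fun g => ?_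
    rw [hdec, val_zero]
    exact Finset.sum_eq_zero fun q hq => by rw [hzero q hq, mul_zero]
  · intro z hz
    simp only [Set.mem_iUnion, Set.mem_ofPred_eq] at hz
    obtain ⟨n, ⟨hn, x, hxo, hx, hk⟩, hz⟩ := hz
    have hz0 : z ≠ 0 := by
      rintro rfl
      rw [zero_pow (by omega)] at hz
      exact zero_ne_one hz
    refine ⟨(hc.hasEigenvalue_iff_mem_spectrum hz0).1 ?_, hz0⟩
    obtain ⟨m, rfl⟩ : ∃ m, n = m + 1 := ⟨n - 1, by omega⟩
    have hxp : IsPeriodicPt f (m + 1) x := hx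
    refine Module.End.hasEigenvalue_of_hasEigenvector
      (x := ∑ k ∈ Finset.range (m + 1), z ^ (m + 1 - k) • dl o (f^[k] x)) ⟨?_, ?_⟩
    · rw [Module.End.mem_eigenspace_iff]
      change T _ = _
      rw [map_sum, Finset.smul_sum, Finset.sum_range_succ, Finset.sum_range_succ']
      congr 1
      · refine Finset.sum_congr rfl fun k hk => ?_
        have hk' := Finset.mem_range.1 hk
        rw [map_smul, hT, ← iterate_succ_apply' f k, smul_smul, ← pow_succ']
        congr 2; omega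
      · rw [map_smul, hT, ← iterate_succ_apply' f m, hx, smul_smul]
        simp [hz]
    · intro h
      have a := congrArg (fun γ => val γ (e x)) h
      simp only [val_sum, val_smul, val_dl, val_zero] at a
      rw [Finset.sum_eq_single 0] at a
      · simp [he1 x hxo, hz] at a
      · intro k hk' hk0
        rw [he0 x hxo _ ⟨m + 1, Nat.succ_pos _, hxp.apply_iterate k⟩
          (hk k (by omega) (Finset.mem_range.1 hk')), mul_zero]
      · intro h; simp at h

end Pool.Agent.Results.MP_e86906_an.Spec
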